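import Mathlib

/-!
Composite values of `⌊10^n α⌋`: structure of a hypothetical counterexample.
-/

namespace Pool.Agent.Results.MP_7b3100_nt.DigitBlocks

/-- An integer `m` is composite if `|m| ≥ 2` and `|m|` is not prime. -/
def IsComposite (m : ℤ) : Prop := 2 ≤ m.natAbs ∧ ¬ m.natAbs.Prime

/-- The `(n+1)`-st decimal digit of `α`: `⌊10^(n+1) α⌋ - 10 ⌊10^n α⌋`. -/
noncomputable def digit (α : ℝ) (n : ℕ) : ℤ := ⌊10 ^ (n + 1) * α⌋ - 10 * ⌊10 ^ n * α⌋

/-- The digits of `α` in the places `i, …, j - 1` form one of the blocks `93`, `339`, `9939`. -/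
def IsBlock (α : ℝ) (i j : ℕ) : Prop :=
  (j = i + 2 ∧ digit α i = 9 ∧ digit α (i + 1) = 3) ∨
  (j = i + 3 ∧ digit α i = 3 ∧ digit α (i + 1) = 3 ∧ digit α (i + 2) = 9) ∨
  (j = i + 4 ∧ digit α i = 9 ∧ digit α (i + 1) = 9 ∧ digit α (i + 2) = 3 ∧ digit α (i + 3) = 9)

lemma digit_bounds (α : ℝ) (n : ℕ) : 0 ≤ digit α n ∧ digit α n ≤ 9 := by
  unfold digit
  have h1 : (⌊10 ^ n * α⌋ : ℝ) ≤ 10 ^ n * α := Int.floor_le _
  have h2 : 10 ^ n * α < (⌊10 ^ n * α⌋ : ℝ) + 1 := Int.lt_floor_add_one _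
  constructor
  · have : (10 * ⌊10 ^ n * α⌋ : ℤ) ≤ ⌊10 ^ (n+1) * α⌋ := by
      apply Int.le_floor.mpr
      push_cast
      rw [pow_succ]; nlinarith
    linarith
  · have : ⌊10 ^ (n+1) * α⌋ < 10 * ⌊10 ^ n * α⌋ + 10 := by
      apply Int.floor_lt.mpr
      push_cast
      rw [pow_succ]; nlinarith
    linarith

/-- The setting of an integer sequence produced by appending digits. -/
structure Setting (m d : ℕ → ℤ) (N : ℕ) : Prop where
  step : ∀ n, m (n + 1) = 10 * m n + d n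
  lo : ∀ n, 0 ≤ d n
  hi : ∀ n, d n ≤ 9
  big : ∀ n, N ≤ n → 10 < (m n).natAbs
  pr : ∀ n, N ≤ n → (m n).natAbs.Prime

section

variable {m d : ℕ → ℤ} {N : ℕ}

lemma not_dvd (S : Setting m d N) (p : ℕ) (hp : p.Prime) (hp10 : p ≤ 10) (n : ℕ) (hn : N ≤ n) :
    ¬ ((p : ℤ) ∣ m n) := by
  intro h
  have h1 : p ∣ (m n).natAbs := Int.natCast_dvd.mp h
  have h2 := (Nat.prime_dvd_prime_iff_eq hp (S.pr n hn)).mp h1
  have := S.big n hn
  omega

lemma abs_step (S : Setting m d N) (n : ℕ) (hn : N ≤ n) :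
    (m n).natAbs < (m (n + 1)).natAbs := by
  have h1 := S.step n
  have h2 := S.lo n
  have h3 := S.hi n
  have h4 := S.big n hn
  omega

lemma abs_lt (S : Setting m d N) (n : ℕ) (hn : N ≤ n) (j : ℕ) (hj : 0 < j) :
    (m n).natAbs < (m (n + j)).natAbs := by
  obtain ⟨i, rfl⟩ : ∃ i, j = i + 1 := ⟨j - 1, by omega⟩
  clear hj
  induction i with
  | zero => exact abs_step S n hn
  | succ i ih => exact ih.trans (abs_step S (n + (i + 1)) (by omega))

lemma key (S : Setting m d N) (n j : ℕ) (hn : N ≤ n) (hj : 0 < j)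
    (h : ((m n).natAbs : ℤ) ∣ m (n + j)) : False := by
  have h1 : (m n).natAbs ∣ (m (n+j)).natAbs := Int.natCast_dvd.mp h
  have h2 := (Nat.prime_dvd_prime_iff_eq (S.pr n hn) (S.pr (n+j) (by omega))).mp h1
  have h3 := abs_lt S n hn j hj
  omega

lemma pow_sub_one_dvd (q : ℕ) (hq : q.Prime) (hq10 : 10 < q) (t : ℕ) :
    (q : ℤ) ∣ 10 ^ (t * (q - 1)) - 1 := by
  have hcop : IsCoprime (10 : ℤ) (q : ℤ) := by
    have : Nat.Coprime 10 q := by
      rw [Nat.coprime_comm]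
      apply (Nat.Prime.coprime_iff_not_dvd hq).mpr
      intro h
      have := Nat.le_of_dvd (by norm_num) h
      omega
    exact_mod_cast Nat.isCoprime_iff_coprime.mpr this
  have h := Int.ModEq.pow_card_sub_one_eq_one hq hcop
  have h2 := h.pow t
  rw [one_pow, ← pow_mul, mul_comm] at h2
  exact h2.symm.dvd

/-- the digits cannot be eventually constant -/
lemma not_const (S : Setting m d N) (n : ℕ) (hn : N ≤ n) (c : ℤ)
    (hc : ∀ k, n ≤ k → d k = c) : False := by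
  have hrec : ∀ j, 9 * m (n + j) + c = 10 ^ j * (9 * m n + c) := by
    intro j
    induction j with
    | zero => simp
    | succ j ih =>
      have h1 := S.step (n + j)
      have h2 := hc (n + j) (by omega)
      have e : n + (j + 1) = n + j + 1 := by ring
      rw [e, h1, h2, pow_succ]
      linear_combination 10 * ih
  set q := (m n).natAbs with hq
  have hqp : q.Prime := S.pr n hn
  have hq10 : 10 < q := S.big n hn
  have h1 := hrec (1 * (q - 1))
  obtain ⟨t, ht⟩ := pow_sub_one_dvd q hqp hq10 1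
  have hd : (q : ℤ) ∣ m n := by rw [hq]; exact Int.natAbs_dvd.mpr dvd_rfl
  obtain ⟨u, hu⟩ := hd
  have h3 : (q : ℤ) ∣ 9 * m (n + 1 * (q - 1)) := by
    refine ⟨9 * u + t * (9 * m n + c), ?_⟩
    have : (10:ℤ) ^ (1 * (q-1)) = q * t + 1 := by linarith
    rw [this] at h1
    linear_combination h1 + 9 * hu
  have hcop : IsCoprime (q : ℤ) 9 := by
    have : Nat.Coprime q 9 := by
      apply (Nat.Prime.coprime_iff_not_dvd hqp).mpr
      intro h
      have := Nat.le_of_dvd (by norm_num) h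
      omega
    exact_mod_cast Nat.isCoprime_iff_coprime.mpr this
  have h4 := hcop.dvd_of_dvd_mul_left h3
  exact key S n (1 * (q-1)) hn (by omega) h4

/-- digits eventually in {3, 9} -/
lemma digits_39 (S : Setting m d N) : ∃ N1, N ≤ N1 ∧ ∀ n, N1 ≤ n → d n = 3 ∨ d n = 9 := by
  have base : ∀ n, N ≤ n → (d n = 1 ∨ d n = 3 ∨ d n = 7 ∨ d n = 9) ∧
      (m n % 3 = 1 ∨ m n % 3 = 2) := by
    intro n hn
    have h2 := not_dvd S 2 (by norm_num) (by norm_num) (n+1) (by omega)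
    have h5 := not_dvd S 5 (by norm_num) (by norm_num) (n+1) (by omega)
    have h3 := not_dvd S 3 (by norm_num) (by norm_num) n hn
    have h1 := S.step n
    have hlo := S.lo n
    have hhi := S.hi n
    push_cast at h2 h5 h3
    omega
  by_cases hex : ∃ n, N ≤ n ∧ m n % 3 = 2
  · obtain ⟨n0, hn0, h0⟩ := hex
    have hstay : ∀ n, n0 ≤ n → m n % 3 = 2 := by
      intro n hn
      induction n, hn using Nat.le_induction with
      | base => exact h0
      | succ n hn ih =>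
        have h1 := S.step n
        have hb := base n (by omega)
        have hb' := base (n+1) (by omega)
        omega
    refine ⟨n0, hn0, fun n hn => ?_⟩
    have h1 := S.step n
    have hb := base n (by omega)
    have ha := hstay n hn
    have hc := hstay (n+1) (by omega)
    omega
  · push Not at hex
    refine ⟨N, le_refl _, fun n hn => ?_⟩
    have h1 := S.step n
    have hb := base n hn
    have hb' := base (n+1) (by omega)
    have ha := hex n hn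
    have hc := hex (n+1) (by omega)
    omega

lemma tr_aux (x y e : ℤ) (h1 : y = 10 * x + e) (h2 : e = 3 ∨ e = 9) (h3 : x % 7 ≠ 0)
    (h4 : y % 7 ≠ 0) (h5 : x % 7 ≠ 6) (h6 : y % 7 ≠ 6) :
      (x % 7 = 1 ∧ e = 9 ∧ y % 7 = 5) ∨
      (x % 7 = 2 ∧ e = 3 ∧ y % 7 = 2) ∨ (x % 7 = 2 ∧ e = 9 ∧ y % 7 = 1) ∨
      (x % 7 = 3 ∧ e = 3 ∧ y % 7 = 5) ∨ (x % 7 = 3 ∧ e = 9 ∧ y % 7 = 4) ∨
      (x % 7 = 4 ∧ e = 3 ∧ y % 7 = 1) ∨
      (x % 7 = 5 ∧ e = 3 ∧ y % 7 = 4) ∨ (x % 7 = 5 ∧ e = 9 ∧ y % 7 = 3) := by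
  have hy : y % 7 = (3 * (x % 7) + e) % 7 := by omega
  have hr0 : 0 ≤ x % 7 := by omega
  have hr7 : x % 7 < 7 := by omega
  rw [hy] at h4 h6 ⊢
  clear h1 hy
  generalize x % 7 = r at *
  rcases h2 with h2 | h2 <;> subst h2 <;> interval_cases r <;> simp_all

lemma blocks (S : Setting m d N) : ∃ s : ℕ → ℕ, StrictMono s ∧ ∀ k,
    (s (k+1) = s k + 2 ∧ d (s k) = 9 ∧ d (s k + 1) = 3) ∨
    (s (k+1) = s k + 3 ∧ d (s k) = 3 ∧ d (s k + 1) = 3 ∧ d (s k + 2) = 9) ∨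
    (s (k+1) = s k + 4 ∧ d (s k) = 9 ∧ d (s k + 1) = 9 ∧ d (s k + 2) = 3 ∧ d (s k + 3) = 9) := by
  obtain ⟨N1, hN1, hd⟩ := digits_39 S
  have r7 : ∀ n, N1 ≤ n → m n % 7 ≠ 0 := by
    intro n hn h
    exact not_dvd S 7 (by norm_num) (by norm_num) n (by omega) (Int.dvd_of_emod_eq_zero h)
  have n6 : ∀ n, N1 ≤ n → m n % 7 ≠ 6 := by
    intro n hn h
    have hall : ∀ k, n ≤ k → m k % 7 = 6 := by
      intro k hk
      induction k, hk using Nat.le_induction with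
      | base => exact h
      | succ k hk ih =>
        have h1 := S.step k
        have h2 := hd k (by omega)
        have h3 := r7 (k+1) (by omega)
        omega
    apply not_const S n (by omega) 9
    intro k hk
    have h1 := S.step k
    have h2 := hd k (by omega)
    have h3 := r7 (k+1) (by omega)
    have h4 := hall k hk
    omega
  have tr : ∀ n, N1 ≤ n →
      (m n % 7 = 1 ∧ d n = 9 ∧ m (n+1) % 7 = 5) ∨
      (m n % 7 = 2 ∧ d n = 3 ∧ m (n+1) % 7 = 2) ∨ (m n % 7 = 2 ∧ d n = 9 ∧ m (n+1) % 7 = 1) ∨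
      (m n % 7 = 3 ∧ d n = 3 ∧ m (n+1) % 7 = 5) ∨ (m n % 7 = 3 ∧ d n = 9 ∧ m (n+1) % 7 = 4) ∨
      (m n % 7 = 4 ∧ d n = 3 ∧ m (n+1) % 7 = 1) ∨
      (m n % 7 = 5 ∧ d n = 3 ∧ m (n+1) % 7 = 4) ∨ (m n % 7 = 5 ∧ d n = 9 ∧ m (n+1) % 7 = 3) := by
    intro n hn
    have h1 := S.step n
    have h2 := hd n hn
    have h3 := r7 n hn
    have h4 := r7 (n+1) (by omega)
    have h5 := n6 n hn
    have h6 := n6 (n+1) (by omega)
    exact tr_aux _ _ _ h1 h2 h3 h4 h5 h6
  obtain ⟨n1, hn1, h1⟩ : ∃ n, N1 ≤ n ∧ m n % 7 ≠ 2 := by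
    by_contra hcon
    push Not at hcon
    apply not_const S N1 (by omega) 3
    intro k hk
    have h2 := hcon k hk
    have h3 := hcon (k+1) (by omega)
    have h4 := tr k hk
    omega
  obtain ⟨n2, hn2, h2⟩ : ∃ n, N1 ≤ n ∧ m n % 7 = 5 := by
    have t1 := tr n1 hn1
    have t2 := tr (n1+1) (by omega)
    have t3 := tr (n1+1+1) (by omega)
    by_cases c0 : m n1 % 7 = 5
    · exact ⟨n1, hn1, c0⟩
    by_cases c1 : m (n1+1) % 7 = 5
    · exact ⟨n1+1, by omega, c1⟩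
    by_cases c2 : m (n1+1+1) % 7 = 5
    · exact ⟨n1+1+1, by omega, c2⟩
    refine ⟨n1+1+1+1, by omega, ?_⟩
    omega
  let T := {n : ℕ // N1 ≤ n ∧ m n % 7 = 5}
  have hnext : ∀ x : T, ∃ y : T,
      (y.1 = x.1 + 2 ∧ d x.1 = 9 ∧ d (x.1 + 1) = 3) ∨
      (y.1 = x.1 + 3 ∧ d x.1 = 3 ∧ d (x.1 + 1) = 3 ∧ d (x.1 + 2) = 9) ∨
      (y.1 = x.1 + 4 ∧ d x.1 = 9 ∧ d (x.1 + 1) = 9 ∧ d (x.1 + 2) = 3 ∧ d (x.1 + 3) = 9) := by
    rintro ⟨n, hn, h5⟩
    have t0 := tr n hn
    have t1 := tr (n+1) (by omega)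
    have t2 := tr (n+1+1) (by omega)
    have t3 := tr (n+1+1+1) (by omega)
    have e2 : n + 1 + 1 = n + 2 := by ring
    have e3 : n + 1 + 1 + 1 = n + 3 := by ring
    have e4 : n + 1 + 1 + 1 + 1 = n + 4 := by ring
    rw [e2] at t1
    rw [e3, e2] at t2
    rw [e4, e3] at t3
    by_cases c1 : d n = 9
    · by_cases c2 : d (n+1) = 3
      · exact ⟨⟨n+2, by omega, by omega⟩, Or.inl ⟨rfl, c1, c2⟩⟩
      · have f1 : d (n+1) = 9 := by omega
        have f2 : d (n+2) = 3 := by omega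
        have f3 : d (n+3) = 9 := by omega
        exact ⟨⟨n+4, by omega, by omega⟩, Or.inr (Or.inr ⟨rfl, c1, f1, f2, f3⟩)⟩
    · have f0 : d n = 3 := by omega
      have f1 : d (n+1) = 3 := by omega
      have f2 : d (n+2) = 9 := by omega
      exact ⟨⟨n+3, by omega, by omega⟩, Or.inr (Or.inl ⟨rfl, f0, f1, f2⟩)⟩
  choose nxt hnxt using hnext
  let start : T := ⟨n2, hn2, h2⟩
  refine ⟨fun k => (nxt^[k] start).1, ?_, ?_⟩
  · apply strictMono_nat_of_lt_succ
    intro k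
    have h := hnxt (nxt^[k] start)
    simp only [Function.iterate_succ', Function.comp]
    omega
  · intro k
    have h := hnxt (nxt^[k] start)
    simp only [Function.iterate_succ', Function.comp]
    exact h

end

/-- The sequence of floors eventually has the properties of `Setting`. -/
lemma setting_of (α : ℝ) (hα : α ≠ 0) (h : ∀ n : ℕ, 1 ≤ n → ¬ IsComposite ⌊10 ^ n * α⌋) :
    ∃ N, Setting (fun n => ⌊10 ^ n * α⌋) (digit α) N := by
  obtain ⟨k, hk⟩ : ∃ k : ℕ, 12 / |α| < 10 ^ k := pow_unbounded_of_one_lt _ (by norm_num)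
  have hα' : 0 < |α| := abs_pos.mpr hα
  have hbig : ∀ n, k ≤ n → (10:ℤ) < |⌊(10:ℝ) ^ n * α⌋| := by
    intro n hn
    have h1 : (12:ℝ) < |10 ^ n * α| := by
      rw [abs_mul, abs_of_pos (by positivity : (0:ℝ) < 10 ^ n)]
      have h2 : (10:ℝ) ^ k ≤ 10 ^ n := pow_le_pow_right₀ (by norm_num) hn
      rw [div_lt_iff₀ hα'] at hk
      nlinarith
    have h3 : ((⌊(10:ℝ) ^ n * α⌋ : ℤ) : ℝ) ≤ 10 ^ n * α := Int.floor_le _
    have h4 : 10 ^ n * α < ((⌊(10:ℝ) ^ n * α⌋ : ℤ) : ℝ) + 1 := Int.lt_floor_add_one _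
    have h5 : (10:ℝ) < |((⌊(10:ℝ) ^ n * α⌋ : ℤ) : ℝ)| := by
      rcases lt_abs.mp h1 with h6 | h6
      · rw [lt_abs]; left; linarith
      · rw [lt_abs]; right; linarith
    exact_mod_cast h5
  refine ⟨k + 1, ?_, ?_, ?_, ?_, ?_⟩
  · intro n; simp only [digit]; ring
  · intro n; exact (digit_bounds α n).1
  · intro n; exact (digit_bounds α n).2
  · intro n hn
    have := hbig n (by omega)
    rw [Int.abs_eq_natAbs] at this
    exact_mod_cast this
  · intro n hn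
    have h1 := hbig n (by omega)
    have h2 := h n (by omega)
    rw [Int.abs_eq_natAbs] at h1
    have h3 : 10 < (⌊(10:ℝ) ^ n * α⌋).natAbs := by exact_mod_cast h1
    unfold IsComposite at h2
    by_contra hcon
    exact h2 ⟨by omega, hcon⟩

lemma irrational_of (α : ℝ) (hα : α ≠ 0) (h : ∀ n : ℕ, 1 ≤ n → ¬ IsComposite ⌊10 ^ n * α⌋) :
    Irrational α := by
  obtain ⟨N, S⟩ := setting_of α hα h
  rintro ⟨r, hr⟩
  set b : ℕ := r.den with hb
  have hb0 : 0 < b := r.den_pos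
  have : NeZero b := ⟨hb0.ne'⟩
  obtain ⟨i, i', hne, heq⟩ := Finite.exists_ne_map_eq_of_infinite (fun n : ℕ => (10 : ZMod b) ^ n)
  wlog hlt : i < i' generalizing i i'
  · exact this i' i hne.symm heq.symm (by omega)
  obtain ⟨l, hl, rfl⟩ : ∃ l, 0 < l ∧ i' = i + l := ⟨i' - i, by omega, by omega⟩
  have hper : ∀ n, i ≤ n → ∀ t, (10 : ZMod b) ^ (n + t * l) = 10 ^ n := by
    intro n hn t
    obtain ⟨c, rfl⟩ : ∃ c, n = i + c := ⟨n - i, by omega⟩
    induction t with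
    | zero => simp
    | succ t ih =>
      have e : i + c + (t + 1) * l = (i + l) + (c + t * l) := by ring
      rw [e, pow_add, ← heq, ← pow_add, ← ih]
      congr 1
      ring
  -- a prime q > b among the terms
  have hgrow : ∀ j, j < (⌊(10:ℝ) ^ (N + j) * α⌋).natAbs := by
    intro j
    induction j with
    | zero =>
      have h0 : 10 < (⌊(10:ℝ) ^ N * α⌋).natAbs := S.big N le_rfl
      rw [add_zero]; omega
    | succ j ih =>
      have h0 : (⌊(10:ℝ) ^ (N + j) * α⌋).natAbs < (⌊(10:ℝ) ^ (N + j + 1) * α⌋).natAbs :=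
        abs_step S (N + j) (by omega)
      have e : N + (j + 1) = N + j + 1 := by ring
      rw [e]; omega
  set n := N + (b + i) with hn
  have hqb := hgrow (b + i)
  rw [← hn] at hqb
  set q := (⌊(10:ℝ) ^ n * α⌋).natAbs with hq
  have hqp : q.Prime := S.pr n (by omega)
  have hq10 : 10 < q := S.big n (by omega)
  set j := (q - 1) * l with hj
  have hpos : 0 < j := Nat.mul_pos (by omega) hl
  apply key S n j (by omega) hpos
  rw [← hq]
  -- floors of rationals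
  have hfl : ∀ t : ℕ, ⌊(10:ℝ) ^ t * α⌋ = (10 ^ t * r.num) / (b : ℤ) := by
    intro t
    have : (10:ℝ) ^ t * α = (((10 ^ t * r.num : ℤ) : ℚ) / ((b : ℕ) : ℚ) : ℚ) := by
      rw [← hr]
      push_cast
      rw [hb]
      have h2 : ((r : ℚ) : ℝ) = (r.num : ℝ) / (r.den : ℝ) := by exact_mod_cast (Rat.num_div_den r).symm
      rw [h2]; ring
    rw [this, Rat.floor_cast, Rat.floor_intCast_div_natCast]
  have hmod : (10 ^ (n + j) * r.num) % (b : ℤ) = (10 ^ n * r.num) % (b : ℤ) := by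
    have h1 : ((10 ^ (n + j) * r.num : ℤ) : ZMod b) = ((10 ^ n * r.num : ℤ) : ZMod b) := by
      push_cast
      rw [hj, hper n (by omega) (q - 1)]
    exact (ZMod.intCast_eq_intCast_iff _ _ b).mp h1
  have e1 := Int.mul_ediv_add_emod (10 ^ (n + j) * r.num) (b : ℤ)
  have e2 := Int.mul_ediv_add_emod (10 ^ n * r.num) (b : ℤ)
  rw [← hfl] at e1 e2
  obtain ⟨t, ht⟩ := pow_sub_one_dvd q hqp hq10 l
  have ht' : (10:ℤ) ^ j = q * t + 1 := by rw [hj, mul_comm]; linarith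
  have hd : (q : ℤ) ∣ ⌊(10:ℝ) ^ n * α⌋ := by rw [hq]; exact Int.natAbs_dvd.mpr dvd_rfl
  obtain ⟨u, hu⟩ := hd
  have h3 : (q : ℤ) ∣ (b : ℤ) * ⌊(10:ℝ) ^ (n + j) * α⌋ := by
    refine ⟨b * u + t * (10 ^ n * r.num), ?_⟩
    have e3 : (10:ℤ) ^ (n + j) = 10 ^ n * (q * t + 1) := by rw [pow_add, ht']
    rw [hmod, e3] at e1
    linear_combination e1 - e2 + b * hu
  have hcop : IsCoprime (q : ℤ) (b : ℤ) := by
    have : Nat.Coprime q b := by
      apply (Nat.Prime.coprime_iff_not_dvd hqp).mpr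
      intro hdv
      have := Nat.le_of_dvd hb0 hdv
      omega
    exact_mod_cast Nat.isCoprime_iff_coprime.mpr this
  exact hcop.dvd_of_dvd_mul_left h3

/-- If `α ≠ 0` and `⌊10^n α⌋` is not composite for all `n ≥ 1`, then `α` is irrational and its
decimal expansion is from some place on a concatenation of the blocks `93`, `339` and `9939`. -/
theorem result (α : ℝ) (hα : α ≠ 0) (h : ∀ n : ℕ, 1 ≤ n → ¬ IsComposite ⌊10 ^ n * α⌋) :
    Irrational α ∧ ∃ s : ℕ → ℕ, StrictMono s ∧ ∀ k, IsBlock α (s k) (s (k + 1)) := by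
  refine ⟨irrational_of α hα h, ?_⟩
  obtain ⟨N, S⟩ := setting_of α hα h
  exact blocks S

end Pool.Agent.Results.MP_7b3100_nt.DigitBlocks
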