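import Mathlib

/-!
# MP_7b3100_nt : composite values of ⌊10^n α⌋ — the shape of a counterexample

Myerson's problem asks whether for every real `α ≠ 0` some `⌊10^n α⌋`, `n ≥ 1`, is composite.
We show that a counterexample `α` is irrational and that its sequence of decimal digits is, from
some place on, an infinite concatenation of the three words `93`, `339` and `9939`.
-/

namespace Pool.Agent.Results.MP_7b3100_nt.DigitTail

/-- An integer is composite if its absolute value is at least two and not prime. -/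
def IsComposite (m : ℤ) : Prop := 2 ≤ m.natAbs ∧ ¬ m.natAbs.Prime

/-- The integer `⌊10^n α⌋`. -/
noncomputable def fl (α : ℝ) (n : ℕ) : ℤ := ⌊(10 : ℝ) ^ n * α⌋

/-- The digit appended when passing from `⌊10^n α⌋` to `⌊10^(n+1) α⌋`. -/
noncomputable def dig (α : ℝ) (n : ℕ) : ℤ := fl α (n + 1) - 10 * fl α n

/-- The digits of `α` at the places `n, …, n' - 1` spell one of `93`, `339`, `9939`. -/
def Block (α : ℝ) (n n' : ℕ) : Prop :=
  (n' = n + 2 ∧ dig α n = 9 ∧ dig α (n + 1) = 3) ∨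
  (n' = n + 3 ∧ dig α n = 3 ∧ dig α (n + 1) = 3 ∧ dig α (n + 2) = 9) ∨
  (n' = n + 4 ∧ dig α n = 9 ∧ dig α (n + 1) = 9 ∧ dig α (n + 2) = 3 ∧ dig α (n + 3) = 9)

lemma dig_bounds (α : ℝ) (n : ℕ) : 0 ≤ dig α n ∧ dig α n ≤ 9 := by
  unfold dig fl
  have h1 : (10 : ℝ) ^ (n + 1) * α = 10 * ((10 : ℝ) ^ n * α) := by ring
  rw [h1]
  set y : ℝ := (10 : ℝ) ^ n * α
  have ha : (⌊y⌋ : ℝ) ≤ y := Int.floor_le y
  have hb : y < ⌊y⌋ + 1 := Int.lt_floor_add_one y
  constructor
  · have : 10 * ⌊y⌋ ≤ ⌊10 * y⌋ := by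
      apply Int.le_floor.mpr
      push_cast
      linarith
    linarith
  · have : ⌊10 * y⌋ < 10 * ⌊y⌋ + 10 := by
      apply Int.floor_lt.mpr
      push_cast
      linarith
    omega

lemma exists_large (α : ℝ) (hα : α ≠ 0) : ∃ N, ∀ n, N ≤ n → 11 ≤ (fl α n).natAbs := by
  have hpos : 0 < |α| := abs_pos.mpr hα
  obtain ⟨N, hN⟩ := pow_unbounded_of_one_lt (12 / |α|) (by norm_num : (1 : ℝ) < 10)
  refine ⟨N, fun n hn => ?_⟩
  have h1 : (10 : ℝ) ^ N ≤ 10 ^ n := pow_le_pow_right₀ (by norm_num) hn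
  have h2 : 12 < (10 : ℝ) ^ n * |α| := by
    have := lt_of_lt_of_le hN h1
    rwa [div_lt_iff₀ hpos] at this
  have h3 : |(10 : ℝ) ^ n * α| = (10 : ℝ) ^ n * |α| := by
    rw [abs_mul, abs_of_pos (by positivity)]
  unfold fl
  set y : ℝ := (10 : ℝ) ^ n * α
  have ha : (⌊y⌋ : ℝ) ≤ y := Int.floor_le y
  have hb : y < ⌊y⌋ + 1 := Int.lt_floor_add_one y
  rw [← h3] at h2
  by_contra hcon
  have h4 : -10 ≤ ⌊y⌋ ∧ ⌊y⌋ ≤ 10 := by omega
  have h5 : (-10 : ℝ) ≤ ⌊y⌋ := by exact_mod_cast h4.1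
  have h6 : (⌊y⌋ : ℝ) ≤ 10 := by exact_mod_cast h4.2
  have h7 : |y| ≤ 12 := by rw [abs_le]; constructor <;> linarith
  linarith

/-- No number `q` between 2 and 10 divides an integer whose absolute value is a prime `≥ 11`. -/
lemma not_dvd_of_prime {x : ℤ} (hp : x.natAbs.Prime) (hx : 11 ≤ x.natAbs) (q : ℕ) (h2 : 2 ≤ q)
    (h10 : q ≤ 10) : ¬ ((q : ℤ) ∣ x) := by
  intro h
  have h' : q ∣ x.natAbs := Int.natCast_dvd.mp h
  rcases (Nat.dvd_prime hp).mp h' with h'' | h'' <;> omega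

/-- The key divisibility argument. -/
lemma no_geometric (x : ℕ → ℤ) (N : ℕ) (hp : ∀ n, N ≤ n → (x n).natAbs.Prime)
    (hx : ∀ n, N ≤ n → 11 ≤ (x n).natAbs) (n L : ℕ) (hn : N ≤ n) (hL : 1 ≤ L) (b r : ℤ)
    (hb : 0 < b) (hr0 : 0 ≤ r) (hr : r ≤ b) (hbq : b < (x n).natAbs)
    (hgeo : ∀ k : ℕ, b * x (n + k * L) + r = 10 ^ (k * L) * (b * x n + r)) : False := by
  set q := (x n).natAbs with hq
  have hqp : q.Prime := hp n hn
  have hq11 : 11 ≤ q := hx n hn
  have : Fact q.Prime := ⟨hqp⟩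
  have h10 : ((10 : ℕ) : ZMod q) ≠ 0 := by
    intro h
    rw [ZMod.natCast_eq_zero_iff] at h
    have h2 : q ∣ 2 * 5 := by simpa using h
    rcases (Nat.Prime.dvd_mul hqp).mp h2 with h3 | h3
    · have := Nat.le_of_dvd (by norm_num) h3; omega
    · have := Nat.le_of_dvd (by norm_num) h3; omega
  have hxn0 : ((x n : ℤ) : ZMod q) = 0 := by
    rw [ZMod.intCast_zmod_eq_zero_iff_dvd]
    rw [hq]
    exact Int.natAbs_dvd.mpr dvd_rfl
  have hpow : ((10 : ℕ) : ZMod q) ^ (q - 1) = 1 := ZMod.pow_card_sub_one_eq_one h10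
  have hk := hgeo (q - 1)
  set m := n + (q - 1) * L with hm
  have hmN : N ≤ m := by rw [hm]; exact le_trans hn (Nat.le_add_right _ _)
  have hbx : ((b * x m : ℤ) : ZMod q) = 0 := by
    have h1 : b * x m = 10 ^ ((q - 1) * L) * (b * x n + r) - r := by linarith
    rw [h1]
    push_cast
    rw [hxn0]
    have h2 : (10 : ZMod q) ^ ((q - 1) * L) = 1 := by
      rw [pow_mul]
      have : (10 : ZMod q) ^ (q - 1) = 1 := by simpa using hpow
      rw [this, one_pow]
    rw [h2]
    ring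
  rw [ZMod.intCast_zmod_eq_zero_iff_dvd] at hbx
  have hqx : (q : ℤ) ∣ x m := by
    have hqpi : Prime (q : ℤ) := Nat.prime_iff_prime_int.mp hqp
    rcases hqpi.dvd_or_dvd hbx with h | h
    · have := Int.le_of_dvd hb h; omega
    · exact h
  have hqx' : q ∣ (x m).natAbs := Int.natCast_dvd.mp hqx
  have heq : q = (x m).natAbs := by
    rcases (Nat.dvd_prime (hp m hmN)).mp hqx' with h | h
    · omega
    · exact h
  -- sizes
  have hexp : 1 ≤ (q - 1) * L := Nat.one_le_iff_ne_zero.mpr (by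
    have h1 : q - 1 ≠ 0 := by omega
    have h2 : L ≠ 0 := by omega
    exact Nat.mul_ne_zero h1 h2)
  have hpow10 : (10 : ℤ) ≤ 10 ^ ((q - 1) * L) := by
    calc (10 : ℤ) = 10 ^ 1 := by norm_num
      _ ≤ 10 ^ ((q - 1) * L) := pow_le_pow_right₀ (by norm_num) hexp
  have hA : |b * x m + r| ≤ b * q + b := by
    have h1 : |x m| = q := by rw [Int.abs_eq_natAbs]; rw [← heq]
    calc |b * x m + r| ≤ |b * x m| + |r| := abs_add_le _ _
      _ = b * q + r := by rw [abs_mul, abs_of_pos hb, h1, abs_of_nonneg hr0]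
      _ ≤ b * q + b := by linarith
  have hB : b * q - b ≤ |b * x n + r| := by
    have h1 : |x n| = q := by rw [Int.abs_eq_natAbs]
    have h2 : |b * x n| ≤ |b * x n + r| + |r| := by
      have := abs_sub (b * x n + r) r
      simpa using this
    have h3 : |b * x n| = b * q := by rw [abs_mul, abs_of_pos hb, h1]
    rw [h3, abs_of_nonneg hr0] at h2
    linarith
  have hC : |b * x m + r| = 10 ^ ((q - 1) * L) * |b * x n + r| := by
    rw [hk, abs_mul, abs_of_pos (by positivity)]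
  have hq1 : (11 : ℤ) ≤ q := by exact_mod_cast hq11
  have hD : 10 * (b * q - b) ≤ 10 ^ ((q - 1) * L) * |b * x n + r| := by
    have h0 : 0 ≤ b * q - b := by nlinarith
    exact mul_le_mul hpow10 hB h0 (by positivity)
  nlinarith

lemma fl_step (α : ℝ) (n : ℕ) : fl α (n + 1) = 10 * fl α n + dig α n := by
  unfold dig; ring

section Tail

variable (α : ℝ) (N : ℕ) (hp : ∀ n, N ≤ n → (fl α n).natAbs.Prime)
  (hx : ∀ n, N ≤ n → 11 ≤ (fl α n).natAbs)

include hp hx

lemma mods (n : ℕ) (hn : N ≤ n) : fl α n % 2 ≠ 0 ∧ fl α n % 3 ≠ 0 ∧ fl α n % 5 ≠ 0 ∧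
    fl α n % 7 ≠ 0 := by
  have h2 := not_dvd_of_prime (hp n hn) (hx n hn) 2 (by norm_num) (by norm_num)
  have h3 := not_dvd_of_prime (hp n hn) (hx n hn) 3 (by norm_num) (by norm_num)
  have h5 := not_dvd_of_prime (hp n hn) (hx n hn) 5 (by norm_num) (by norm_num)
  have h7 := not_dvd_of_prime (hp n hn) (hx n hn) 7 (by norm_num) (by norm_num)
  push_cast at h2 h3 h5 h7
  refine ⟨?_, ?_, ?_, ?_⟩ <;> omega

lemma dig_odd (n : ℕ) (hn : N ≤ n) : dig α n = 1 ∨ dig α n = 3 ∨ dig α n = 7 ∨ dig α n = 9 := by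
  have h1 := mods α N hp hx (n + 1) (by omega)
  have h2 := dig_bounds α n
  have h3 := fl_step α n
  omega

lemma exists_three_nine : ∃ N1, N ≤ N1 ∧ ∀ n, N1 ≤ n → dig α n = 3 ∨ dig α n = 9 := by
  by_cases h : ∃ n1, N ≤ n1 ∧ fl α n1 % 3 = 2
  · obtain ⟨n1, hn1, h2⟩ := h
    have key : ∀ k : ℕ, fl α (n1 + k) % 3 = 2 := by
      intro k
      induction k with
      | zero => simpa using h2
      | succ k ih =>
        have h1 := mods α N hp hx (n1 + k + 1) (by omega)
        have h3 := fl_step α (n1 + k)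
        have h4 := dig_odd α N hp hx (n1 + k) (by omega)
        have h5 : n1 + (k + 1) = n1 + k + 1 := by ring
        rw [h5]
        omega
    refine ⟨n1, hn1, fun n hn => ?_⟩
    obtain ⟨k, rfl⟩ := Nat.exists_eq_add_of_le hn
    have h1 := key k
    have h1' := key (k + 1)
    have h5 : n1 + (k + 1) = n1 + k + 1 := by ring
    rw [h5] at h1'
    have h3 := fl_step α (n1 + k)
    have h4 := dig_odd α N hp hx (n1 + k) (by omega)
    omega
  · push Not at h
    refine ⟨N, le_rfl, fun n hn => ?_⟩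
    have h1 := mods α N hp hx n hn
    have h1' := mods α N hp hx (n + 1) (by omega)
    have h2 := h n hn
    have h2' := h (n + 1) (by omega)
    have h3 := fl_step α n
    have h4 := dig_odd α N hp hx n hn
    omega

lemma not_all_nine (n : ℕ) (hn : N ≤ n) (h : ∀ m, n ≤ m → dig α m = 9) : False := by
  refine no_geometric (fl α) N hp hx n 1 hn le_rfl 1 1 one_pos zero_le_one le_rfl ?_ ?_
  · have := hx n hn
    omega
  · intro k
    induction k with
    | zero => simp
    | succ k ih =>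
      have h3 := fl_step α (n + k * 1)
      rw [h (n + k * 1) (by omega)] at h3
      have h5 : n + (k + 1) * 1 = n + k * 1 + 1 := by ring
      rw [h5, h3]
      have h6 : (10 : ℤ) ^ ((k + 1) * 1) = 10 * 10 ^ (k * 1) := by ring
      rw [h6]
      linarith

lemma not_all_three (n : ℕ) (hn : N ≤ n) (h : ∀ m, n ≤ m → dig α m = 3) : False := by
  refine no_geometric (fl α) N hp hx n 1 hn le_rfl 3 1 (by norm_num) zero_le_one (by norm_num) ?_ ?_
  · have := hx n hn
    omega
  · intro k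
    induction k with
    | zero => simp
    | succ k ih =>
      have h3 := fl_step α (n + k * 1)
      rw [h (n + k * 1) (by omega)] at h3
      have h5 : n + (k + 1) * 1 = n + k * 1 + 1 := by ring
      rw [h5, h3]
      have h6 : (10 : ℤ) ^ ((k + 1) * 1) = 10 * 10 ^ (k * 1) := by ring
      rw [h6]
      linarith

/-- From some place on the residues modulo 7 avoid 2 and 6, and the digits are 3 or 9. -/
lemma exists_core : ∃ N2, N ≤ N2 ∧ ∀ n, N2 ≤ n → (dig α n = 3 ∨ dig α n = 9) ∧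
    (fl α n % 7 = 1 ∨ fl α n % 7 = 3 ∨ fl α n % 7 = 4 ∨ fl α n % 7 = 5) := by
  obtain ⟨N1, hN1, hd⟩ := exists_three_nine α N hp hx
  -- residue 6 never occurs
  have h6 : ∀ n, N1 ≤ n → fl α n % 7 ≠ 6 := by
    intro n hn h
    have key : ∀ k : ℕ, fl α (n + k) % 7 = 6 := by
      intro k
      induction k with
      | zero => simpa using h
      | succ k ih =>
        have h1 := mods α N hp hx (n + k + 1) (by omega)
        have h3 := fl_step α (n + k)
        have h4 := hd (n + k) (by omega)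
        have h5 : n + (k + 1) = n + k + 1 := by ring
        rw [h5]
        omega
    refine not_all_nine α N hp hx n (by omega) (fun m hm => ?_)
    obtain ⟨k, rfl⟩ := Nat.exists_eq_add_of_le hm
    have h1 := key k
    have h1' := key (k + 1)
    have h5 : n + (k + 1) = n + k + 1 := by ring
    rw [h5] at h1'
    have h3 := fl_step α (n + k)
    have h4 := hd (n + k) (by omega)
    omega
  -- residue 2 does not last
  have h2 : ∃ n, N1 ≤ n ∧ fl α n % 7 ≠ 2 := by
    by_contra hcon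
    push Not at hcon
    refine not_all_three α N hp hx N1 hN1 (fun m hm => ?_)
    have h1 := hcon m hm
    have h1' := hcon (m + 1) (by omega)
    have h3 := fl_step α m
    have h4 := hd m hm
    omega
  obtain ⟨n2, hn2, h2'⟩ := h2
  have key : ∀ k : ℕ, fl α (n2 + k) % 7 ≠ 2 := by
    intro k
    induction k with
    | zero => simpa using h2'
    | succ k ih =>
      have h1 := mods α N hp hx (n2 + k) (by omega)
      have h1' := mods α N hp hx (n2 + k + 1) (by omega)
      have h3 := fl_step α (n2 + k)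
      have h4 := hd (n2 + k) (by omega)
      have h5 : n2 + (k + 1) = n2 + k + 1 := by ring
      rw [h5]
      omega
  refine ⟨n2, by omega, fun n hn => ⟨hd n (by omega), ?_⟩⟩
  obtain ⟨k, rfl⟩ := Nat.exists_eq_add_of_le hn
  have h1 := key k
  have h1' := h6 (n2 + k) (by omega)
  have h7 := mods α N hp hx (n2 + k) (by omega)
  omega

lemma exists_blocks : ∃ m : ℕ → ℕ, StrictMono m ∧ ∀ i, Block α (m i) (m (i + 1)) := by
  obtain ⟨N2, hN2, hcore⟩ := exists_core α N hp hx
  -- a place with residue 5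
  have hstart : ∃ n, N2 ≤ n ∧ fl α n % 7 = 5 := by
    have c0 := hcore N2 le_rfl
    have c1 := hcore (N2 + 1) (by omega)
    have c2 := hcore (N2 + 2) (by omega)
    have c3 := hcore (N2 + 3) (by omega)
    have s0 := fl_step α N2
    have s1 := fl_step α (N2 + 1)
    have s2 := fl_step α (N2 + 2)
    by_cases e0 : fl α N2 % 7 = 5
    · exact ⟨N2, le_rfl, e0⟩
    by_cases e1 : fl α (N2 + 1) % 7 = 5
    · exact ⟨N2 + 1, by omega, e1⟩
    by_cases e2 : fl α (N2 + 2) % 7 = 5
    · exact ⟨N2 + 2, by omega, e2⟩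
    refine ⟨N2 + 3, by omega, ?_⟩
    have s1' : fl α (N2 + 2) = 10 * fl α (N2 + 1) + dig α (N2 + 1) := s1
    have s2' : fl α (N2 + 3) = 10 * fl α (N2 + 2) + dig α (N2 + 2) := s2
    omega
  have hnext : ∀ n, N2 ≤ n → fl α n % 7 = 5 → ∃ n', Block α n n' ∧ n < n' ∧
      fl α n' % 7 = 5 := by
    intro n hn h5
    have c1 := hcore n hn
    have c2 := hcore (n + 1) (by omega)
    have c3 := hcore (n + 2) (by omega)
    have c4 := hcore (n + 3) (by omega)
    have c5 := hcore (n + 4) (by omega)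
    have s0 := fl_step α n
    have s1 : fl α (n + 2) = 10 * fl α (n + 1) + dig α (n + 1) := fl_step α (n + 1)
    have s2 : fl α (n + 3) = 10 * fl α (n + 2) + dig α (n + 2) := fl_step α (n + 2)
    have s3 : fl α (n + 4) = 10 * fl α (n + 3) + dig α (n + 3) := fl_step α (n + 3)
    rcases c1.1 with d0 | d0
    · -- digit 3: residue 4, then 3 (residue 1), then 9 (residue 5)
      have r1 : fl α (n + 1) % 7 = 4 := by omega
      have d1 : dig α (n + 1) = 3 := by omega
      have r2 : fl α (n + 2) % 7 = 1 := by omega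
      have d2 : dig α (n + 2) = 9 := by omega
      refine ⟨n + 3, Or.inr (Or.inl ⟨rfl, d0, d1, d2⟩), by omega, by omega⟩
    · have r1 : fl α (n + 1) % 7 = 3 := by omega
      rcases c2.1 with d1 | d1
      · refine ⟨n + 2, Or.inl ⟨rfl, d0, d1⟩, by omega, by omega⟩
      · have r2 : fl α (n + 2) % 7 = 4 := by omega
        have d2 : dig α (n + 2) = 3 := by omega
        have r3 : fl α (n + 3) % 7 = 1 := by omega
        have d3 : dig α (n + 3) = 9 := by omega
        refine ⟨n + 4, Or.inr (Or.inr ⟨rfl, d0, d1, d2, d3⟩), by omega, by omega⟩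
  obtain ⟨n0, hn0, h50⟩ := hstart
  choose! f hf using hnext
  let m : ℕ → ℕ := fun i => f^[i] n0
  have hm : ∀ i, N2 ≤ m i ∧ fl α (m i) % 7 = 5 := by
    intro i
    induction i with
    | zero => exact ⟨hn0, h50⟩
    | succ i ih =>
      have h1 : m (i + 1) = f (m i) := Function.iterate_succ_apply' f i n0
      rw [h1]
      have h2 := hf (m i) ih.1 ih.2
      exact ⟨by omega, h2.2.2⟩
  refine ⟨m, ?_, ?_⟩
  · apply strictMono_nat_of_lt_succ
    intro i
    have h1 : m (i + 1) = f (m i) := Function.iterate_succ_apply' f i n0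
    rw [h1]
    exact (hf (m i) (hm i).1 (hm i).2).2.1
  · intro i
    have h1 : m (i + 1) = f (m i) := Function.iterate_succ_apply' f i n0
    rw [h1]
    exact (hf (m i) (hm i).1 (hm i).2).1

/-- A counterexample is irrational. -/
lemma irr (hα : α ≠ 0) : Irrational α := by
  rintro ⟨a, ha⟩
  -- α = p / b
  set b : ℤ := (a.den : ℤ) with hb
  have hbpos : 0 < b := by rw [hb]; exact_mod_cast a.den_pos
  set p : ℤ := a.num with hpn
  have hαeq : α = (p : ℝ) / (b : ℝ) := by
    rw [← ha, hb, hpn]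
    exact_mod_cast (Rat.num_div_den a).symm
  have hflo : ∀ n, fl α n = (10 ^ n * p) / b := by
    intro n
    unfold fl
    have h1 : (10 : ℝ) ^ n * α = (((10 ^ n * p : ℤ) : ℝ)) / ((b : ℤ) : ℝ) := by
      rw [hαeq]; push_cast; ring
    rw [h1]
    have h2 := Rat.floor_intCast_div_natCast (10 ^ n * p) a.den
    have h3 : (((10 ^ n * p : ℤ) : ℝ)) / ((b : ℤ) : ℝ)
        = ((((10 ^ n * p : ℤ) : ℚ) / (a.den : ℚ) : ℚ) : ℝ) := by
      rw [hb]; push_cast; ring
    rw [h3, Rat.floor_cast, h2]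
  -- b < |x n| eventually
  have hbig : ∃ M, N ≤ M ∧ ∀ n, M ≤ n → b < (fl α n).natAbs := by
    obtain ⟨M, hM⟩ := pow_unbounded_of_one_lt (((b : ℝ) + 2) / |α|) (by norm_num : (1 : ℝ) < 10)
    refine ⟨max M N, le_max_right _ _, fun n hn => ?_⟩
    have hpos : 0 < |α| := abs_pos.mpr hα
    have h1 : (10 : ℝ) ^ M ≤ 10 ^ n := pow_le_pow_right₀ (by norm_num) (le_trans (le_max_left _ _) hn)
    have h2 : (b : ℝ) + 2 < (10 : ℝ) ^ n * |α| := by
      have := lt_of_lt_of_le hM h1
      rwa [div_lt_iff₀ hpos] at this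
    have h3 : |(10 : ℝ) ^ n * α| = (10 : ℝ) ^ n * |α| := by
      rw [abs_mul, abs_of_pos (by positivity)]
    unfold fl
    rw [← h3] at h2
    set y : ℝ := (10 : ℝ) ^ n * α
    have ha' : (⌊y⌋ : ℝ) ≤ y := Int.floor_le y
    have hb' : y < ⌊y⌋ + 1 := Int.lt_floor_add_one y
    by_contra hcon
    have h4 : -b ≤ ⌊y⌋ ∧ ⌊y⌋ ≤ b := by omega
    have h5 : (-b : ℝ) ≤ ⌊y⌋ := by exact_mod_cast h4.1
    have h6 : (⌊y⌋ : ℝ) ≤ b := by exact_mod_cast h4.2
    have h7 : |y| ≤ (b : ℝ) + 2 := by rw [abs_le]; constructor <;> linarith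
    linarith
  obtain ⟨M, hMN, hM⟩ := hbig
  -- pigeonhole for the remainders
  have hfin : ∃ i j : ℕ, i < j ∧ (10 ^ (M + i) * p) % b = (10 ^ (M + j) * p) % b := by
    have hmaps : Set.MapsTo (fun i : ℕ => (10 ^ (M + i) * p) % b) Set.univ
        (Set.Ico (0 : ℤ) b) := by
      intro i _
      exact ⟨Int.emod_nonneg _ hbpos.ne', Int.emod_lt_of_pos _ hbpos⟩
    obtain ⟨i, _, j, _, hij, he⟩ :=
      Set.infinite_univ.exists_ne_map_eq_of_mapsTo hmaps (Set.finite_Ico _ _)
    rcases lt_or_gt_of_ne hij with h | h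
    · exact ⟨i, j, h, he⟩
    · exact ⟨j, i, h, he.symm⟩
  obtain ⟨i, j, hij, he⟩ := hfin
  set n := M + i with hn
  set L := j - i with hL
  set r : ℤ := (10 ^ n * p) % b with hr
  have hj : M + j = n + L := by omega
  have hdvd : ∀ k : ℕ, (10 ^ (n + k * L) * p) % b = r := by
    intro k
    induction k with
    | zero => simp [hr]
    | succ k ih =>
      have h1 : (10 : ℤ) ^ (n + (k + 1) * L) * p = 10 ^ L * (10 ^ (n + k * L) * p) := by ring
      rw [h1, Int.mul_emod, ih, hr, ← Int.mul_emod]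
      have h2 : (10 : ℤ) ^ L * (10 ^ n * p) = 10 ^ (n + L) * p := by ring
      rw [h2, ← hj]
      exact he.symm
  refine no_geometric (fl α) N hp hx n L (by omega) (by omega) b r hbpos
    (Int.emod_nonneg _ hbpos.ne') (Int.emod_lt_of_pos _ hbpos).le (hM n (by omega)) ?_
  intro k
  have e1 : b * fl α (n + k * L) + r = 10 ^ (n + k * L) * p := by
    rw [hflo, ← hdvd k]
    exact Int.mul_ediv_add_emod _ _
  have e2 : b * fl α n + r = 10 ^ n * p := by
    rw [hflo, hr]
    exact Int.mul_ediv_add_emod _ _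
  rw [e1, e2]
  ring

end Tail

/-- **The shape of a counterexample to Myerson's question.**  If `α ≠ 0` is a real number such that
no `⌊10^n α⌋` with `n ≥ 1` is composite, then `α` is irrational and, from some place on, its
sequence of digits is an infinite concatenation of the words `93`, `339` and `9939`. -/
theorem result (α : ℝ) (hα : α ≠ 0) (h : ∀ n : ℕ, 1 ≤ n → ¬ IsComposite ⌊(10 : ℝ) ^ n * α⌋) :
    Irrational α ∧ ∃ m : ℕ → ℕ, StrictMono m ∧ ∀ i, Block α (m i) (m (i + 1)) := by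
  obtain ⟨N0, hN0⟩ := exists_large α hα
  have hx : ∀ n, N0 + 1 ≤ n → 11 ≤ (fl α n).natAbs := fun n hn => hN0 n (by omega)
  have hp : ∀ n, N0 + 1 ≤ n → (fl α n).natAbs.Prime := by
    intro n hn
    have h1 := h n (by omega)
    have h2 := hx n hn
    by_contra hcon
    exact h1 ⟨by unfold fl at h2; omega, hcon⟩
  exact ⟨irr α (N0 + 1) hp hx hα, exists_blocks α (N0 + 1) hp hx⟩

end Pool.Agent.Results.MP_7b3100_nt.DigitTail
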