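import Pool.Agent.H666T.Table

/-!
The number of ways to append `n` decimal digits to `m`, one after the other, such that all the
numbers obtained are prime grows at most like `1.28 ^ n`.
-/

open Finset

namespace Pool.Agent.Results.MP_7b3100_nt.ExtensionCount

open Pool.Agent.H666T

/-- `cnt n m` is the number of strings of `n` decimal digits such that the `n` numbers obtained
from `m` by appending the digits one after the other are all prime. -/
def cnt : ℕ → ℕ → ℕ
  | 0, _ => 1
  | n + 1, m => ∑ d ∈ Finset.range 10, if (10 * m + d).Prime then cnt n (10 * m + d) else 0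

lemma not_prime_of (m d : ℕ) (hm : 2 ≤ m) (hd : d = 0 ∨ d = 2 ∨ d = 4 ∨ d = 5 ∨ d = 6 ∨ d = 8) :
    ¬ (10 * m + d).Prime := by
  intro h
  rcases hd with rfl | rfl | rfl | rfl | rfl | rfl
  · have h2 := (Nat.prime_dvd_prime_iff_eq Nat.prime_two h).mp (by omega)
    omega
  · have h2 := (Nat.prime_dvd_prime_iff_eq Nat.prime_two h).mp (by omega)
    omega
  · have h2 := (Nat.prime_dvd_prime_iff_eq Nat.prime_two h).mp (by omega)
    omega
  · have h2 := (Nat.prime_dvd_prime_iff_eq Nat.prime_five h).mp (by omega)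
    omega
  · have h2 := (Nat.prime_dvd_prime_iff_eq Nat.prime_two h).mp (by omega)
    omega
  · have h2 := (Nat.prime_dvd_prime_iff_eq Nat.prime_two h).mp (by omega)
    omega

lemma cnt_succ (n m : ℕ) (hm : 2 ≤ m) : cnt (n + 1) m =
    (if (10 * m + 1).Prime then cnt n (10 * m + 1) else 0) +
    (if (10 * m + 3).Prime then cnt n (10 * m + 3) else 0) +
    (if (10 * m + 7).Prime then cnt n (10 * m + 7) else 0) +
    (if (10 * m + 9).Prime then cnt n (10 * m + 9) else 0) := by
  rw [cnt]
  simp only [Finset.sum_range_succ, Finset.sum_range_zero]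
  rw [if_neg (not_prime_of m 0 hm (by simp)), if_neg (not_prime_of m 2 hm (by simp)),
    if_neg (not_prime_of m 4 hm (by simp)), if_neg (not_prime_of m 5 hm (by simp)),
    if_neg (not_prime_of m 6 hm (by simp)), if_neg (not_prime_of m 8 hm (by simp))]
  ring

lemma coprime_of_prime (x : ℕ) (hx : x.Prime) (h : 17 < x) : Nat.gcd (x % 51051) 51051 = 1 := by
  rw [← Nat.gcd_rec, Nat.gcd_comm]
  have h1 : Nat.Coprime x 51051 := by
    apply (Nat.Prime.coprime_iff_not_dvd hx).mpr
    intro hd
    have h2 : (51051 : ℕ) = 3 * (7 * (11 * (13 * 17))) := by norm_num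
    rw [h2] at hd
    rcases (Nat.Prime.dvd_mul hx).mp hd with h3 | h3
    · have := Nat.le_of_dvd (by norm_num) h3; omega
    rcases (Nat.Prime.dvd_mul hx).mp h3 with h4 | h4
    · have := Nat.le_of_dvd (by norm_num) h4; omega
    rcases (Nat.Prime.dvd_mul hx).mp h4 with h5 | h5
    · have := Nat.le_of_dvd (by norm_num) h5; omega
    rcases (Nat.Prime.dvd_mul hx).mp h5 with h6 | h6
    · have := Nat.le_of_dvd (by norm_num) h6; omega
    · have := Nat.le_of_dvd (by norm_num) h6; omega
  exact h1

lemma main_bound (n : ℕ) : ∀ m : ℕ, 2 ≤ m → Nat.gcd (m % 51051) 51051 = 1 →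
    3 * cnt n m * 25 ^ n ≤ wt (m % 51051) * 32 ^ n := by
  induction n with
  | zero =>
    intro m _ hc
    have h := wt_spec (m % 51051) (Nat.mod_lt _ (by norm_num)) hc
    simpa [cnt] using h.1
  | succ n ih =>
    intro m hm hc
    have h := (wt_spec (m % 51051) (Nat.mod_lt _ (by norm_num)) hc).2.2
    have hb : ∀ d : ℕ, d = 1 ∨ d = 3 ∨ d = 7 ∨ d = 9 →
        3 * (if (10 * m + d).Prime then cnt n (10 * m + d) else 0) * 25 ^ n ≤
          wt ((10 * (m % 51051) + d) % 51051) * 32 ^ n := by
      intro d _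
      split_ifs with hp
      · have h1 := ih (10 * m + d) (by omega) (coprime_of_prime _ hp (by omega))
        have h2 : (10 * m + d) % 51051 = (10 * (m % 51051) + d) % 51051 := by omega
        rwa [h2] at h1
      · simp
    have h1 := hb 1 (by simp)
    have h3 := hb 3 (by simp)
    have h7 := hb 7 (by simp)
    have h9 := hb 9 (by simp)
    rw [cnt_succ n m hm, pow_succ, pow_succ]
    generalize (if (10 * m + 1).Prime then cnt n (10 * m + 1) else 0) = c1 at *
    generalize (if (10 * m + 3).Prime then cnt n (10 * m + 3) else 0) = c3 at *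
    generalize (if (10 * m + 7).Prime then cnt n (10 * m + 7) else 0) = c7 at *
    generalize (if (10 * m + 9).Prime then cnt n (10 * m + 9) else 0) = c9 at *
    generalize wt ((10 * (m % 51051) + 1) % 51051) = w1 at *
    generalize wt ((10 * (m % 51051) + 3) % 51051) = w3 at *
    generalize wt ((10 * (m % 51051) + 7) % 51051) = w7 at *
    generalize wt ((10 * (m % 51051) + 9) % 51051) = w9 at *
    generalize wt (m % 51051) = w at *
    calc 3 * (c1 + c3 + c7 + c9) * (25 ^ n * 25)
        = 25 * (3 * c1 * 25 ^ n + 3 * c3 * 25 ^ n + 3 * c7 * 25 ^ n + 3 * c9 * 25 ^ n) := by ring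
      _ ≤ 25 * (w1 * 32 ^ n + w3 * 32 ^ n + w7 * 32 ^ n + w9 * 32 ^ n) := by omega
      _ = (25 * (w1 + w3 + w7 + w9)) * 32 ^ n := by ring
      _ ≤ (32 * w) * 32 ^ n := Nat.mul_le_mul_right _ h
      _ = w * (32 ^ n * 32) := by ring

lemma nat_bound (n m : ℕ) (hm : 2 ≤ m) : cnt n m * 25 ^ n ≤ 207728 * 32 ^ n := by
  cases n with
  | zero => simp [cnt]
  | succ n =>
    have hb : ∀ d : ℕ, 
        3 * (if (10 * m + d).Prime then cnt n (10 * m + d) else 0) * 25 ^ n ≤ 155796 * 32 ^ n := by
      intro d
      split_ifs with hp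
      · have hc := coprime_of_prime _ hp (by omega)
        have h1 := main_bound n (10 * m + d) (by omega) hc
        have h2 := (wt_spec _ (Nat.mod_lt _ (by norm_num)) hc).2.1
        exact h1.trans (Nat.mul_le_mul_right _ h2)
      · simp
    have h1 := hb 1
    have h3 := hb 3
    have h7 := hb 7
    have h9 := hb 9
    rw [cnt_succ n m hm, pow_succ, pow_succ]
    generalize (if (10 * m + 1).Prime then cnt n (10 * m + 1) else 0) = c1 at *
    generalize (if (10 * m + 3).Prime then cnt n (10 * m + 3) else 0) = c3 at *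
    generalize (if (10 * m + 7).Prime then cnt n (10 * m + 7) else 0) = c7 at *
    generalize (if (10 * m + 9).Prime then cnt n (10 * m + 9) else 0) = c9 at *
    have e : (c1 + c3 + c7 + c9) * (25 ^ n * 25) * 3 =
        25 * (3 * c1 * 25 ^ n + 3 * c3 * 25 ^ n + 3 * c7 * 25 ^ n + 3 * c9 * 25 ^ n) := by ring
    have e2 : 207728 * (32 ^ n * 32) * 3 = 32 * (4 * (155796 * 32 ^ n)) := by ring
    omega

/-- For all integers `m ≥ 2` and `n ≥ 0` there are at most `207728 * 1.28 ^ n` strings of `n`
decimal digits such that the `n` numbers obtained from `m` by appending the digits one after the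
other are all prime. -/
theorem result (m : ℕ) (hm : 2 ≤ m) (n : ℕ) : (cnt n m : ℝ) ≤ 207728 * (1.28 : ℝ) ^ n := by
  have h := nat_bound n m hm
  have h1 : (cnt n m : ℝ) * 25 ^ n ≤ 207728 * 32 ^ n := by exact_mod_cast h
  have h2 : (1.28 : ℝ) ^ n = 32 ^ n / 25 ^ n := by
    rw [← div_pow]; norm_num
  rw [h2, ← mul_div_assoc, le_div_iff₀ (by positivity)]
  exact h1

end Pool.Agent.Results.MP_7b3100_nt.ExtensionCount
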