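import Mathlib
import Pool.Agent.helper391_MY.Chains
import Pool.Agent.helper391_MY.Dim

set_option autoImplicit false

/-!
# Composite values of `⌊10^n α⌋`: the exceptional set has Hausdorff dimension at most `1/10`

Myerson asked whether for every real `α ≠ 0` some `⌊10^n α⌋`, `n ≥ 1`, is composite, or, equivalently, whether there
is no infinite sequence of primes each of which arises from the preceding one by adding a decimal digit. We
bound the number of finite sequences of this kind, uniformly in the first prime: there are at most
`10^9 · 1.258^n` of them with `n` further terms. As a consequence the set of the `α ≠ 0` for which no `⌊10^n α⌋` is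
composite has Hausdorff dimension at most `1/10`.

Proof. The primes 2, 5 and 3 leave only the digits 3 and 9 and, at most once, 1 or 7; this would give `2^n` and the
dimension `log 2 / log 10 = 0.301…`. A large prime is in particular not divisible by 7, 13, 17, 19. There is a
weight function on the residues modulo `29393 = 7 · 13 · 17 · 19`, with values in `[1, 4095]` at the residues
prime to `29393` and vanishing at all others, such that the sum of the weights of `10 x + 3` and `10 x + 9` is less
than `1.258` times the weight of `x`. It is a table of 44 kilobytes in the helper file, and the inequality is checked by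
the kernel for all residues. (The growth rate of this automaton is `1.2531…`, and `1.258^10 < 10`.)
-/

namespace Pool.Agent.Results.MP_7b3100_nt.PrimePrefixes

open Pool.Agent.helper391_MY
open scoped ENNReal NNReal

/-- (1) For all natural numbers `p` and `n`, at most `10^9 · 1.258^n` natural numbers `q` have `n` decimal digits after
the prefix `p` and satisfy that `q` and all its prefixes down to `p` are primes. (2) The set of the real numbers
`α ≠ 0` for which none of the integers `⌊10^n α⌋`, `n ≥ 1`, is composite has Hausdorff dimension at most `1/10`. -/
theorem result :
    (∀ p n : ℕ, (({q : ℕ | q / 10 ^ n = p ∧ ∀ j ≤ n, (q / 10 ^ j).Prime}.ncard : ℕ) : ℝ) ≤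
      10 ^ 9 * (1.258 : ℝ) ^ n) ∧
    dimH {α : ℝ | α ≠ 0 ∧ ∀ n : ℕ, 1 ≤ n → ¬ Composite ⌊(10 : ℝ) ^ n * α⌋} ≤ ((1 / 10 : ℝ≥0) : ℝ≥0∞) :=
  ⟨fun p n => T_all p n, main⟩

end Pool.Agent.Results.MP_7b3100_nt.PrimePrefixes
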